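import Pool.Agent.Q239.NF.Final

/-!
# The abc conjecture over a number field follows from its restriction to almost-powers

Let `K` be a number field, `(p, q, r)` one of `(3,3,3)`, `(2,4,4)`, `(2,3,6)` and `δ > 0`. The abc
inequality for the points `(a : b : c)` over `K` with `a + b + c = 0` is equivalent to the abc
inequality for those points `(u x ^ p : v y ^ q : w z ^ r)` with `h(1 : u : v : w) ≤ δ h(P)`.
-/

set_option autoImplicit false

namespace Pool.Agent.Results.MP_a793bb_nt.AlmostPowersNumberFields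

open Pool.Agent.Q239.NF

/-- the vectors `x = (u a ^ p, v b ^ q, w c ^ r)` of nonzero numbers with `h(1 : u : v : w) ≤ δ h(x)` -/
def AlmostPowers {K : Type} [Field K] [NumberField K] (p q r : ℕ) (δ : ℝ) : Set (Fin 3 → K) :=
  {x | ∃ u v w a b c : K, u ≠ 0 ∧ v ≠ 0 ∧ w ≠ 0 ∧ a ≠ 0 ∧ b ≠ 0 ∧ c ≠ 0 ∧
    x = ![u * a ^ p, v * b ^ q, w * c ^ r] ∧ height ![1, u, v, w] ≤ δ * height x}

/-- For every number field `K`, every `δ > 0` and `(p, q, r) = (3,3,3)`, `(2,4,4)` or `(2,3,6)`: the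
abc conjecture over `K` holds if and only if it holds for the points `(u a ^ p : v b ^ q : w c ^ r)`
with `h(1 : u : v : w) ≤ δ h(P)`. -/
theorem result (K : Type) [Field K] [NumberField K] (p q r : ℕ)
    (h : (p, q, r) = (3, 3, 3) ∨ (p, q, r) = (2, 4, 4) ∨ (p, q, r) = (2, 3, 6))
    (δ : ℝ) (hδ : 0 < δ) :
    ABC (Set.univ : Set (Fin 3 → K)) ↔ ABC (AlmostPowers (K := K) p q r δ) := by
  have hd := finrank_pos' (K := K)
  have hS : AlmostPowers (K := K) p q r δ = Almost p q r δ := by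
    ext x
    unfold AlmostPowers Almost height
    simp only [Set.mem_ofPred_eq]
    have : ∀ a b : ℝ, a / (Module.finrank ℚ K : ℝ) ≤ δ * (b / (Module.finrank ℚ K : ℝ)) ↔
        a ≤ δ * b := by
      intro a b
      rw [← mul_div_assoc, div_le_div_iff_of_pos_right hd]
    simp only [this]
  rw [abc_iff, abc_iff, hS]
  refine ⟨abcOn_mono (Set.subset_univ _), ?_⟩
  rcases h with h | h | h
  · obtain ⟨rfl, rfl, rfl⟩ : p = 3 ∧ q = 3 ∧ r = 3 := by simpa [Prod.mk.injEq] using h
    exact almost33 hδ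
  · obtain ⟨rfl, rfl, rfl⟩ : p = 2 ∧ q = 4 ∧ r = 4 := by simpa [Prod.mk.injEq] using h
    exact almost24 hδ
  · obtain ⟨rfl, rfl, rfl⟩ : p = 2 ∧ q = 3 ∧ r = 6 := by simpa [Prod.mk.injEq] using h
    exact almost26 hδ

end Pool.Agent.Results.MP_a793bb_nt.AlmostPowersNumberFields
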