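import Pool.Agent.Q38.AE.NF

/-!
# The exact size of the exceptional set of the abc inequality over a number field

`K` is a number field of degree `d` and `T` a finite set of primes of `K`. The points
`P = (a : b : c)` over `K` with `a + b + c = 0` and `abc ≠ 0` are ordered by their radical. For
`1/3 < M < L`, if `L ≤ 1/2`, or `L ≤ 1` and `M ≤ 30/77`, the number of the points with
`exp rad_T(P) ≤ X` which violate `h(P) < M rad_T(P)` and satisfy `h(P) < L rad_T(P)` is
`X ^ (d (1 - M) + o(1))`.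
-/

set_option autoImplicit false

namespace Pool.Agent.Results.MP_a793bb_nt.ExceptionsModerate

open NumberField IsDedekindDomain Filter Topology

variable {K : Type} [Field K] [NumberField K]

/-- the height `h(P)` of the point `P` with coordinates `x` -/
noncomputable def height (x : Fin 3 → K) : ℝ :=
  (∑ w : InfinitePlace K, (w.mult : ℝ) * Real.log (max (w (x 0)) (max (w (x 1)) (w (x 2)))) +
    ∑ᶠ v : HeightOneSpectrum (𝓞 K), Real.log
      (max (FinitePlace.mk v (x 0)) (max (FinitePlace.mk v (x 1)) (FinitePlace.mk v (x 2))))) /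
    (Module.finrank ℚ K : ℝ)

/-- the radical of the point `P` with coordinates `x`, without the primes of `T`: the sum of
`log N(v) / d` over the primes `v ∉ T` at which the valuations of the coordinates are not all
equal -/
noncomputable def rad (T : Set (HeightOneSpectrum (𝓞 K))) (x : Fin 3 → K) : ℝ :=
  (∑ᶠ (v : HeightOneSpectrum (𝓞 K)) (_ : v ∉ T ∧
      ¬ (FinitePlace.mk v (x 0) = FinitePlace.mk v (x 1) ∧
        FinitePlace.mk v (x 1) = FinitePlace.mk v (x 2))),
    Real.log (Ideal.absNorm v.asIdeal : ℝ)) / (Module.finrank ℚ K : ℝ)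

/-- the points `P = (a : b : c)` over `K` with `a + b + c = 0`, `abc ≠ 0`, `exp rad_T(P) ≤ X` and
`M rad_T(P) ≤ h(P) ≤ L log X` -/
def Exceptions (T : Set (HeightOneSpectrum (𝓞 K))) (M L X : ℝ) :
    Set (Projectivization K (Fin 3 → K)) :=
  {P | ∃ (x : Fin 3 → K) (hx : x ≠ 0), P = Projectivization.mk K x hx ∧ x 0 + x 1 + x 2 = 0 ∧
    x 0 * x 1 * x 2 ≠ 0 ∧ Real.exp (rad T x) ≤ X ∧ M * rad T x ≤ height x ∧
    height x ≤ L * Real.log X}

/-- the points with `exp rad_T(P) ≤ X` and `M rad_T(P) ≤ h(P) < L rad_T(P)`: those which violate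
the inequality with the coefficient `M` and satisfy it with the coefficient `L` -/
def Between (T : Set (HeightOneSpectrum (𝓞 K))) (M L X : ℝ) :
    Set (Projectivization K (Fin 3 → K)) :=
  {P | ∃ (x : Fin 3 → K) (hx : x ≠ 0), P = Projectivization.mk K x hx ∧ x 0 + x 1 + x 2 = 0 ∧
    x 0 * x 1 * x 2 ≠ 0 ∧ Real.exp (rad T x) ≤ X ∧ M * rad T x ≤ height x ∧
    height x < L * rad T x}

open Pool.Agent.Q38.AE.Cov Pool.Agent.Q38.AE.NF

theorem exc_ncard {T : Set (HeightOneSpectrum (𝓞 K))} (hT : T.Finite) (M L X : ℝ) :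
    Exceptions T M L X = pt '' E Pool.Agent.W223.AK.Pt (Hh (K := K)) (Nn T) M L X :=
  image_eq hT fun h r => Real.exp r ≤ X ∧ M * r ≤ h ∧ h ≤ L * Real.log X

theorem btw_ncard {T : Set (HeightOneSpectrum (𝓞 K))} (hT : T.Finite) (M L X : ℝ) :
    Between T M L X = pt '' F Pool.Agent.W223.AK.Pt (Hh (K := K)) (Nn T) M L X :=
  image_eq hT fun h r => Real.exp r ≤ X ∧ M * r ≤ h ∧ h < L * r

/-- **The exact size of the exceptional set.** Let `K` be a number field of degree `d`, `T` a finite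
set of primes, `1/3 < M < L`, and `L ≤ 1/2`, or `L ≤ 1` and `M ≤ 30/77`. Then, for `X ≥ 1`, the sets
`Exceptions T M L X` and `Between T M L X` are finite, and their numbers of elements are
`X ^ (d (1 - M) + o(1))` for `X → ∞`. -/
theorem result : ∀ (K : Type) [Field K] [NumberField K] (T : Set (HeightOneSpectrum (𝓞 K))),
    T.Finite → ∀ M L : ℝ, 1 / 3 < M → M < L → (L ≤ 1 / 2 ∨ (L ≤ 1 ∧ M ≤ 30 / 77)) →
      (∀ X : ℝ, 1 ≤ X → (Exceptions T M L X).Finite ∧ Between T M L X ⊆ Exceptions T M L X) ∧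
      Tendsto (fun X : ℝ => Real.log ((Exceptions T M L X).ncard : ℝ) / Real.log X) atTop
        (𝓝 ((Module.finrank ℚ K : ℝ) * (1 - M))) ∧
      Tendsto (fun X : ℝ => Real.log ((Between T M L X).ncard : ℝ) / Real.log X) atTop
        (𝓝 ((Module.finrank ℚ K : ℝ) * (1 - M))) := by
  intro K _ _ T hT M L hM hML hL
  have eE : ∀ X : ℝ, (Exceptions T M L X).ncard =
      (E Pool.Agent.W223.AK.Pt (Hh (K := K)) (Nn T) M L X).ncard := fun X => by
    rw [exc_ncard hT, Set.ncard_image_of_injective _ pt_inj]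
  have eF : ∀ X : ℝ, (Between T M L X).ncard =
      (F Pool.Agent.W223.AK.Pt (Hh (K := K)) (Nn T) M L X).ncard := fun X => by
    rw [btw_ncard hT, Set.ncard_image_of_injective _ pt_inj]
  have hup : ∀ ε : ℝ, 0 < ε → ∃ C : ℝ, 0 < C ∧ ∀ X : ℝ, 1 ≤ X →
      (Exceptions T M L X).Finite ∧ ((Exceptions T M L X).ncard : ℝ) ≤
        C * X ^ ((Module.finrank ℚ K : ℝ) * (1 - M) + ε) := by
    intro ε hε
    obtain ⟨C, hC, h⟩ := upperN K hT hM hML hL hε
    refine ⟨C, hC, fun X hX => ⟨?_, ?_⟩⟩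
    · rw [exc_ncard hT]
      exact (h X hX).1.image _
    · rw [eE]
      exact (h X hX).2
  have hlo : ∀ ε : ℝ, 0 < ε → ∃ X₀ : ℝ, ∀ X : ℝ, X₀ ≤ X →
      X ^ ((Module.finrank ℚ K : ℝ) * (1 - M) - ε) ≤ ((Between T M L X).ncard : ℝ) := by
    intro ε hε
    simp only [eF]
    exact lowerN K hT hM hML hL hε
  have hfin : ∀ X : ℝ, 1 ≤ X → (Exceptions T M L X).Finite ∧
      Between T M L X ⊆ Exceptions T M L X := by
    intro X hX
    obtain ⟨C, -, hC⟩ := hup 1 one_pos
    refine ⟨(hC X hX).1, ?_⟩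
    rw [exc_ncard hT, btw_ncard hT]
    exact Set.image_mono (F_sub (by linarith) (by linarith))
  have hle : ∀ X : ℝ, 1 ≤ X → ((Between T M L X).ncard : ℝ) ≤
      ((Exceptions T M L X).ncard : ℝ) := by
    intro X hX
    obtain ⟨h1, h2⟩ := hfin X hX
    exact_mod_cast Set.ncard_le_ncard h2 h1
  refine ⟨hfin, tendsto_exponent (fun ε hε => ?_) (fun ε hε => ?_),
    tendsto_exponent (fun ε hε => ?_) hlo⟩
  · obtain ⟨C, hC, h⟩ := hup ε hε
    exact ⟨C, hC, fun X hX => (h X hX).2⟩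
  · obtain ⟨X₀, h⟩ := hlo ε hε
    exact ⟨max X₀ 1, fun X hX => (h X ((le_max_left _ _).trans hX)).trans
      (hle X ((le_max_right _ _).trans hX))⟩
  · obtain ⟨C, hC, h⟩ := hup ε hε
    exact ⟨C, hC, fun X hX => (hle X hX).trans (h X hX).2⟩

end Pool.Agent.Results.MP_a793bb_nt.ExceptionsModerate
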