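import Pool.Agent.Q10.KY7

/-!
# The points with rational parameter of a split thin set over a number field, of all heights

`K` is a number field and `x ↦ (P 0 (x) : P 1 (x) : P 2 (x))` a rational map of degree `D` over `K`
from the projective line to the line `a + b + c = 0`, all of whose `q` points over the three points
with `abc = 0` are `K`-rational; they need not be rational. We count the rational numbers `x` for
which the image has a small radical `rad ≤ log X`: all of them, whatever their height, and those for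
which the height is at most a multiple of `log X`, as the abc conjecture predicts for all of them.
The primes of `K` above a prime `p` which divide `u - v α` have together the weight
`[K : ℚ(α)] log p`, if `p` divides the value at `(u, v)` of the form of `α` and is not exceptional.
-/

set_option autoImplicit false

namespace Pool.Agent.Results.MP_a793bb_nt.RationalParameters

open NumberField IsDedekindDomain Polynomial

/-- the height `h(P)` of the problem (the height of Mathlib is relative to `K`) -/
noncomputable def height {K : Type} [Field K] [NumberField K] (x : Fin 3 → K) : ℝ :=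
  Height.logHeight x / (Module.finrank ℚ K : ℝ)

/-- the radical: the sum of `log N(v) / [K : ℚ]` over the primes `v` at which the `v`-adic absolute
values of the coordinates are not all equal -/
noncomputable def rad {K : Type} [Field K] [NumberField K] (x : Fin 3 → K) : ℝ :=
  (∑ᶠ v ∈ {v : HeightOneSpectrum (𝓞 K) | ∃ i j, FinitePlace.mk v (x i) ≠ FinitePlace.mk v (x j)},
    Real.log (Ideal.absNorm v.asIdeal : ℝ)) / (Module.finrank ℚ K : ℝ)

open Classical in
/-- the points of the projective line (`none` is infinity) which are mapped to points with a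
coordinate zero by `x ↦ (P 0 (x) : P 1 (x) : P 2 (x))` -/
noncomputable def zeros {K : Type} [Field K] (P : Fin 3 → K[X]) : Finset (Option K) :=
  ((∏ i, P i).roots.toFinset).image some ∪
    if ∃ i j, (P i).natDegree < (P j).natDegree then {none} else ∅

/-- the degree over `ℚ` of a point of the projective line -/
noncomputable def degree {K : Type} [Field K] [NumberField K] (a : Option K) : ℕ :=
  a.elim 1 fun r => (minpoly ℚ r).natDegree

/-- the number of the rational points among the zeros -/
noncomputable def rationalZeros {K : Type} [Field K] [NumberField K] (P : Fin 3 → K[X]) : ℕ :=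
  ((zeros P).filter fun a => degree a = 1).card

/-- the sum of `1 / degree` over the zeros of degree at least two, plus half the number of the
rational zeros if there are at least two of them -/
noncomputable def S₁ {K : Type} [Field K] [NumberField K] (P : Fin 3 → K[X]) : ℝ :=
  ∑ a ∈ (zeros P).filter (fun a => 2 ≤ degree a), 1 / (degree a : ℝ) +
    if 2 ≤ rationalZeros P then (rationalZeros P : ℝ) / 2 else 0

/-- the sum of `1 / degree` over the zeros of degree at least three, plus half the number of the
rational zeros if there are at least three of them -/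
noncomputable def S₂ {K : Type} [Field K] [NumberField K] (P : Fin 3 → K[X]) : ℝ :=
  ∑ a ∈ (zeros P).filter (fun a => 3 ≤ degree a), 1 / (degree a : ℝ) +
    if 3 ≤ rationalZeros P then (rationalZeros P : ℝ) / 2 else 0

/-- the rational numbers `x`, of any height, for which all coordinates of
`(P 0 (x) : P 1 (x) : P 2 (x))` are different from zero and the radical is at most `log X` -/
def Parameters {K : Type} [Field K] [NumberField K] (P : Fin 3 → K[X]) (X : ℝ) : Set ℚ :=
  {x : ℚ | (∀ i, (P i).eval (x : K) ≠ 0) ∧ rad (fun i => (P i).eval (x : K)) ≤ Real.log X}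

/-- those for which the height of `(P 0 (x) : P 1 (x) : P 2 (x))` is at most `t` -/
def ParametersUpTo {K : Type} [Field K] [NumberField K] (P : Fin 3 → K[X]) (X t : ℝ) : Set ℚ :=
  {x : ℚ | x ∈ Parameters P X ∧ height (fun i => (P i).eval (x : K)) ≤ t}

section
variable {K : Type} [Field K] [NumberField K] {P : Fin 3 → K[X]}

open Pool.Agent.Q10.KY

omit [NumberField K] in
theorem zeros_eq : zeros P = pts P := by
  classical
  unfold zeros pts rts Unequal
  congr!

theorem degree_eq : (degree : Option K → ℕ) = dgr := rfl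

theorem rationalZeros_eq : rationalZeros P = (rat P).card := by
  classical
  unfold rationalZeros rat
  rw [zeros_eq, degree_eq]

theorem S₁_eq : S₁ P = S1 P := by
  classical
  unfold S₁ S1
  rw [rationalZeros_eq, zeros_eq, degree_eq]

theorem S₂_eq : S₂ P = S2 P := by
  classical
  unfold S₂ S2
  rw [rationalZeros_eq, zeros_eq, degree_eq]

theorem rad_le_iff (t : K) (X : ℝ) : rad (fun i => (P i).eval t) ≤ Real.log X ↔
    rdK P t ≤ (Module.finrank ℚ K : ℝ) * Real.log X := by
  have hn0 : (0 : ℝ) < Module.finrank ℚ K := Pool.Agent.Q10.KV.deg_pos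
  unfold rad
  rw [div_le_iff₀ hn0, mul_comm (Real.log X)]
  rfl

theorem height_le_iff (t : K) (b : ℝ) : height (fun i => (P i).eval t) ≤ b ↔
    Height.logHeight (fun i => (P i).eval t) ≤ (Module.finrank ℚ K : ℝ) * b := by
  have hn0 : (0 : ℝ) < Module.finrank ℚ K := Pool.Agent.Q10.KV.deg_pos
  unfold height
  rw [div_le_iff₀ hn0, mul_comm b]

/-- there are at least two zeros -/
theorem two_le (hP : ∀ i, P i ≠ 0) (hsum : P 0 + P 1 + P 2 = 0) (hcop : IsCoprime (P 0) (P 1))
    (hs : ∀ i, (P i).Splits) {D : ℕ} (hD : 1 ≤ D)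
    (hdeg' : ∃ i, (P i).natDegree = D) : 2 ≤ (pts P).card := by
  classical
  have hex : ∀ i, ∃ a ∈ pts P, (∃ r, a = some r ∧ (P i).eval r = 0) ∨
      (a = none ∧ (P i).natDegree < D) := by
    intro i
    rcases Nat.eq_zero_or_pos (P i).natDegree with h | h
    · obtain ⟨j, hj⟩ := hdeg'
      exact ⟨none, mem_pts_none.2 ⟨i, j, by omega⟩, Or.inr ⟨rfl, by omega⟩⟩
    · obtain ⟨r, hr⟩ := (hs i).exists_eval_eq_zero (by
        rw [degree_eq_natDegree (hP i)]
        exact_mod_cast h.ne')
      exact ⟨some r, mem_pts_some.2 ((mem_rts hP).2 ⟨i, hr⟩), Or.inl ⟨r, rfl, hr⟩⟩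
  obtain ⟨a, ha, ha'⟩ := hex 0
  obtain ⟨b, hb, hb'⟩ := hex 1
  have hab : a ≠ b := by
    rintro rfl
    rcases ha' with ⟨r, rfl, hr⟩ | ⟨rfl, h0⟩
    · rcases hb' with ⟨s, hs', hs''⟩ | ⟨h, -⟩
      · rw [Option.some.injEq] at hs'
        rw [← hs'] at hs''
        obtain ⟨u, v, huv⟩ := hcop
        have h1 := congrArg (Polynomial.eval r) huv
        rw [eval_add, eval_mul, eval_mul, hr, hs'', mul_zero, mul_zero, add_zero, eval_one] at h1
        exact zero_ne_one h1
      · exact Option.some_ne_none _ h
    · rcases hb' with ⟨s, hs', -⟩ | ⟨-, h1⟩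
      · exact Option.some_ne_none _ hs'.symm
      · have h2 : P 2 = -(P 0 + P 1) := by linear_combination hsum
        have h3 : (P 2).natDegree < D := by
          rw [h2, natDegree_neg]
          exact (natDegree_add_le _ _).trans_lt (max_lt h0 h1)
        obtain ⟨i, hi⟩ := hdeg'
        fin_cases i
        · exact absurd hi h0.ne
        · exact absurd hi h1.ne
        · exact absurd hi h3.ne
  have h1 : ({a, b} : Finset (Option K)).card ≤ (pts P).card := by
    refine Finset.card_le_card ?_
    intro c hc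
    rw [Finset.mem_insert, Finset.mem_singleton] at hc
    rcases hc with rfl | rfl
    · exact ha
    · exact hb
  rwa [Finset.card_pair hab] at h1

theorem S1_pos (h2 : 2 ≤ (pts P).card) : 0 < S1 P := by
  classical
  unfold S1
  by_cases h : 2 ≤ (rat P).card
  · rw [if_pos h]
    have h1 : (0 : ℝ) < ((rat P).card : ℝ) / 2 := by
      have : (2 : ℝ) ≤ (rat P).card := by exact_mod_cast h
      linarith
    have h3 : 0 ≤ ∑ a ∈ (pts P).filter (fun a => 2 ≤ dgr a), 1 / (dgr a : ℝ) :=
      Finset.sum_nonneg fun a _ => by positivity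
    linarith
  · rw [if_neg h, add_zero]
    have hne : ((pts P).filter (fun a => 2 ≤ dgr a)).Nonempty := by
      by_contra hcon
      rw [Finset.not_nonempty_iff_eq_empty, Finset.filter_eq_empty_iff] at hcon
      apply h
      have e : rat P = pts P := by
        unfold rat
        rw [Finset.filter_eq_self]
        intro a ha
        have h3 := hcon ha
        have h4 := dgr_pos a
        omega
      rw [e]
      exact h2
    refine Finset.sum_pos (fun a _ => ?_) hne
    have : (0 : ℝ) < dgr a := by exact_mod_cast dgr_pos a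
    positivity

theorem S1_quad (hK : Module.finrank ℚ K ≤ 2) (h1 : (rat P).card ≠ 1) :
    S1 P = ((pts P).card : ℝ) / 2 := by
  classical
  have hd : ∀ a : Option K, dgr a ≤ 2 := by
    intro a
    cases a with
    | none => exact one_le_two
    | some r => exact (minpoly.natDegree_le r).trans hK
  have hcard := Finset.card_filter_add_card_filter_not (s := pts P) (fun a => dgr a = 1)
  have e1 : (pts P).filter (fun a => ¬ dgr a = 1) = (pts P).filter (fun a => 2 ≤ dgr a) := by
    refine Finset.filter_congr fun a _ => ?_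
    have := dgr_pos a
    omega
  rw [e1] at hcard
  have e2 : ((pts P).filter (fun a => dgr a = 1)).card = (rat P).card := by
    unfold rat
    congr
  rw [e2] at hcard
  have e3 : ∑ a ∈ (pts P).filter (fun a => 2 ≤ dgr a), 1 / (dgr a : ℝ) =
      (((pts P).filter (fun a => 2 ≤ dgr a)).card : ℝ) / 2 := by
    rw [Finset.sum_congr rfl (g := fun _ => (1 : ℝ) / 2)]
    · rw [Finset.sum_const, nsmul_eq_mul]
      ring
    · intro a ha
      have h3 := (Finset.mem_filter.1 ha).2
      have h4 : dgr a = 2 := le_antisymm (hd a) h3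
      rw [h4]
      norm_num
  have e4 : (if 2 ≤ (rat P).card then ((rat P).card : ℝ) / 2 else 0) = ((rat P).card : ℝ) / 2 := by
    split_ifs with h
    · rfl
    · have : (rat P).card = 0 := by omega
      rw [this]
      norm_num
  unfold S1
  rw [e3, e4, ← hcard]
  push_cast
  ring

end

open Pool.Agent.Q10.KY in
/-- **Theorem.** Let `K` be a number field and `x ↦ (P 0 (x) : P 1 (x) : P 2 (x))` a map of degree
`D ≥ 1` to the line `a + b + c = 0`, given by coprime polynomials over `K` all of whose zeros are in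
`K`; let `q` be the number of the points of the projective line over the points with `abc = 0`.

(1) For all `κ, ε > 0` there are at most `C X ^ (1 / S₁ + ε)` rational numbers `x` for which the
image has radical at most `log X` and height at most `κ log X`.

(2) If `S₂ > 0` (some zero has degree at least three over `ℚ`, or at least three zeros are
rational), then for every `ε > 0` there are at most `C X ^ (1 / S₂ + ε)` rational numbers `x`
for which the image has radical at most `log X`, whatever its height.

(3) For large `X` at least `c X ^ (2 / q)` rational `x` give an image of radical at most `log X` and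
height at most `(D / q) log X`.

(4) If `[K : ℚ] ≤ 2` and the number of the rational zeros is not one, then for all `κ ≥ D / q` the
number of the rational `x` for which the image has radical at most `log X` and height at most
`κ log X` is `X ^ (2 / q + o(1))`. -/
theorem result (K : Type) [Field K] [NumberField K] (P : Fin 3 → K[X]) (hP : ∀ i, P i ≠ 0)
    (hsum : P 0 + P 1 + P 2 = 0) (hcop : IsCoprime (P 0) (P 1)) (hs : ∀ i, (P i).Splits)
    (D : ℕ) (hD : 1 ≤ D) (hdeg : ∀ i, (P i).natDegree ≤ D) (hdeg' : ∃ i, (P i).natDegree = D)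
    (q : ℕ) (hq : (zeros P).card = q) :
    (∀ κ ε : ℝ, 0 < κ → 0 < ε → ∃ C : ℝ, ∀ X : ℝ, 1 ≤ X →
      (ParametersUpTo P X (κ * Real.log X)).Finite ∧
      ((ParametersUpTo P X (κ * Real.log X)).ncard : ℝ) ≤ C * X ^ (1 / S₁ P + ε)) ∧
    (0 < S₂ P → ∀ ε : ℝ, 0 < ε → ∃ C : ℝ, ∀ X : ℝ, 1 ≤ X →
      (Parameters P X).Finite ∧ ((Parameters P X).ncard : ℝ) ≤ C * X ^ (1 / S₂ P + ε)) ∧
    (∃ c : ℝ, 0 < c ∧ ∃ X₀ : ℝ, ∀ X : ℝ, X₀ ≤ X →
      c * X ^ (2 / (q : ℝ)) ≤ ((ParametersUpTo P X ((D : ℝ) / q * Real.log X)).ncard : ℝ)) ∧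
    (Module.finrank ℚ K ≤ 2 → rationalZeros P ≠ 1 → ∀ κ : ℝ, (D : ℝ) / q ≤ κ →
      ∀ δ : ℝ, 0 < δ → ∃ X₀ : ℝ, ∀ X : ℝ, X₀ ≤ X →
        X ^ (2 / (q : ℝ) - δ) ≤ ((ParametersUpTo P X (κ * Real.log X)).ncard : ℝ) ∧
        ((ParametersUpTo P X (κ * Real.log X)).ncard : ℝ) ≤ X ^ (2 / (q : ℝ) + δ)) := by
  classical
  have hu : ∃ u : Fin 3 → K[X], ∑ i, u i * P i = 1 := by
    obtain ⟨a, b, hab⟩ := hcop
    refine ⟨![a, b, 0], ?_⟩
    rw [Fin.sum_univ_three]
    simp only [Matrix.cons_val_zero, Matrix.cons_val_one, Matrix.cons_val, zero_mul, add_zero]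
    exact hab
  have h2 : 2 ≤ (pts P).card := two_le hP hsum hcop hs hD hdeg'
  have hq' : (pts P).card = q := by rw [← zeros_eq]; exact hq
  have hS1 := S1_pos h2
  have hq0 : (0 : ℝ) < q := by
    rw [← hq']
    exact_mod_cast (by omega : 0 < (pts P).card)
  have hD0 : (0 : ℝ) < D := by exact_mod_cast hD
  have hUp : ∀ κ ε : ℝ, 0 < κ → 0 < ε → ∃ C : ℝ, 0 < C ∧ ∀ X : ℝ, 1 ≤ X →
      (ParametersUpTo P X (κ * Real.log X)).Finite ∧
      ((ParametersUpTo P X (κ * Real.log X)).ncard : ℝ) ≤ C * X ^ (1 / S₁ P + ε) := by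
    intro κ ε hκ hε
    obtain ⟨C, hC, h⟩ := bdd_upper hP hs hu hD hdeg hdeg' hS1 κ ε hκ.le hε
    refine ⟨C, hC, fun X hX => Pool.Agent.Q10.KV.fin_of_cards _ _ fun s hs' => ?_⟩
    rw [S₁_eq]
    refine h X hX s fun x hx => ?_
    obtain ⟨⟨g1, g2⟩, g3⟩ := hs' hx
    exact ⟨g1, (rad_le_iff _ _).1 g2, (height_le_iff _ _).1 g3⟩
  obtain ⟨c, hc, X0, hX0, hlow⟩ := lower hP hs hu hD hdeg hq' (by omega)
  have hLow : ∀ κ : ℝ, (D : ℝ) / q ≤ κ → ∀ X : ℝ, X0 ≤ X →
      c * X ^ (2 / (q : ℝ)) ≤ ((ParametersUpTo P X (κ * Real.log X)).ncard : ℝ) := by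
    intro κ hκ X hX
    have hX1 : 1 ≤ X := hX0.trans hX
    have hκ0 : 0 < κ := lt_of_lt_of_le (by positivity) hκ
    obtain ⟨C, -, hfin⟩ := hUp κ 1 hκ0 one_pos
    refine hlow X hX _ (hfin X hX1).1 fun x g1 g2 g3 => ?_
    refine ⟨⟨g1, (rad_le_iff _ _).2 g2⟩, ((height_le_iff _ _).2 g3).trans ?_⟩
    exact mul_le_mul_of_nonneg_right hκ (Real.log_nonneg hX1)
  refine ⟨?_, ?_, ⟨c, hc, X0, hLow _ le_rfl⟩, ?_⟩
  · intro κ ε hκ hε
    obtain ⟨C, -, h⟩ := hUp κ ε hκ hε
    exact ⟨C, h⟩
  · intro hS2 ε hε
    rw [S₂_eq] at hS2 ⊢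
    obtain ⟨C, hC, h⟩ := all_upper hP hs hu hS2 ε hε
    refine ⟨C, fun X hX => Pool.Agent.Q10.KV.fin_of_cards _ _ fun s hs' => ?_⟩
    refine h X hX s fun x hx => ?_
    obtain ⟨g1, g2⟩ := hs' hx
    exact ⟨g1, (rad_le_iff _ _).1 g2⟩
  · intro hK h1 κ hκ δ hδ
    have hκ0 : 0 < κ := lt_of_lt_of_le (by positivity) hκ
    obtain ⟨C, hC, hfin⟩ := hUp κ (δ / 2) hκ0 (by positivity)
    have hS : 1 / S₁ P = 2 / (q : ℝ) := by
      rw [S₁_eq, S1_quad hK (by rw [← rationalZeros_eq]; exact h1), hq']
      field_simp
    rw [hS] at hfin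
    refine ⟨max X0 (max (C ^ (2 / δ)) ((1 / c) ^ (1 / δ))), fun X hX => ?_⟩
    have hXa : X0 ≤ X := (le_max_left _ _).trans hX
    have hXb : C ^ (2 / δ) ≤ X := (le_max_left _ _).trans ((le_max_right _ _).trans hX)
    have hXc : (1 / c) ^ (1 / δ) ≤ X := (le_max_right _ _).trans ((le_max_right _ _).trans hX)
    have hX1 : 1 ≤ X := hX0.trans hXa
    have hXp : 0 < X := by linarith
    constructor
    · refine le_trans ?_ (hLow κ hκ X hXa)
      have h3 : 1 / c ≤ X ^ δ := by
        have h4 := Real.rpow_le_rpow (by positivity) hXc hδ.le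
        rw [← Real.rpow_mul (by positivity), one_div_mul_cancel hδ.ne', Real.rpow_one] at h4
        exact h4
      rw [Real.rpow_sub hXp, div_le_iff₀ (by positivity)]
      have h5 : 1 ≤ c * X ^ δ := by
        rw [div_le_iff₀ hc] at h3
        linarith
      have h6 : 0 < X ^ (2 / (q : ℝ)) := by positivity
      nlinarith
    · refine (hfin X hX1).2.trans ?_
      have h3 : C ≤ X ^ (δ / 2) := by
        have h4 := Real.rpow_le_rpow (by positivity) hXb (by positivity : 0 ≤ δ / 2)
        rw [← Real.rpow_mul hC.le, div_mul_div_comm, mul_comm δ 2, div_self (by positivity),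
          Real.rpow_one] at h4
        exact h4
      calc C * X ^ (2 / (q : ℝ) + δ / 2) ≤ X ^ (δ / 2) * X ^ (2 / (q : ℝ) + δ / 2) :=
            mul_le_mul_of_nonneg_right h3 (by positivity)
        _ = X ^ (2 / (q : ℝ) + δ) := by
            rw [← Real.rpow_add hXp]
            congr 1
            ring

end Pool.Agent.Results.MP_a793bb_nt.RationalParameters
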