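import Pool.Agent.Q239.U.Sphere

/-!
# The abc conjecture over a number field follows from its restriction to the solutions of `x² + y³ = z⁵`

Let `K` be a number field and `(p, q, r)` one of `(2,3,5)`, `(2,3,4)`, `(2,3,3)`, `(2,k,2)`, `(1,k,k)`.
The abc inequality for the points `(a : b : c)` over `K` with `a + b + c = 0` is equivalent to the
abc inequality for the points `(x ^ p : y ^ q : -z ^ r)` with integers `x, y, z` of `K` which are
coprime up to a fixed integer `n`.

The proof uses self-maps of the projective line without three points (Klein's forms). For `(2,3,5)`: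
the form `f = u v (u ^ 10 + 11 u ^ 5 v ^ 5 - v ^ 10)` of the icosahedron and its covariants `H`, `T`
satisfy `T ^ 2 + H ^ 3 = 1728 f ^ 5`. Over `ℚ` the form `f` has only two rational zeros; but for
`u = 2 a b`, `v = a ^ 2 - b ^ 2` the three zeros `a b (a + b) = 0` are zeros of `f`, and the new
critical values `u / v = ± i` are zeros of `T`, so that the composite of degree `120` is unramified
outside of the three points. By the Riemann-Hurwitz formula the height is multiplied by `120`, and
the radical increases by at most `119` times the height.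
-/

set_option autoImplicit false

namespace Pool.Agent.Results.MP_a793bb_nt.SphericalFermatEquations

open NumberField Pool.Agent.Q239.NF

/-- the vectors `(x ^ p, y ^ q, -z ^ r)` with integers `x, y, z` of `K` such that the ideal generated
by `x ^ p, y ^ q, z ^ r` contains `n` -/
def Solutions {K : Type} [Field K] [NumberField K] (p q r n : ℕ) : Set (Fin 3 → K) :=
  {v | ∃ x y z : 𝓞 K, v = ![(x : K) ^ p, (y : K) ^ q, -(z : K) ^ r] ∧
    (n : 𝓞 K) ∈ Ideal.span {x ^ p, y ^ q, z ^ r}}

/-- For every number field `K` and `(p, q, r) = (2,3,5)`, `(2,3,4)`, `(2,3,3)`, `(2,k,2)` or `(1,k,k)`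
there is `n ≠ 0` such that the abc conjecture over `K` is equivalent to its restriction to the
solutions of `x ^ p + y ^ q = z ^ r` in integers of `K` which are coprime up to `n`. -/
theorem result (K : Type) [Field K] [NumberField K] (p q r : ℕ)
    (h : (p, q, r) = (2, 3, 5) ∨ (p, q, r) = (2, 3, 4) ∨ (p, q, r) = (2, 3, 3) ∨
      (∃ k : ℕ, 1 ≤ k ∧ (p, q, r) = (2, k, 2)) ∨ ∃ k : ℕ, 1 ≤ k ∧ (p, q, r) = (1, k, k)) :
    ∃ n : ℕ, n ≠ 0 ∧ (ABC (Set.univ : Set (Fin 3 → K)) ↔ ABC (Solutions (K := K) p q r n)) := by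
  have key : ∀ {p q r : ℕ}, Pool.Agent.Q239.U.SMap p q r →
      ∃ n : ℕ, n ≠ 0 ∧ (ABC (Set.univ : Set (Fin 3 → K)) ↔ ABC (Solutions (K := K) p q r n)) := by
    intro p q r s
    obtain ⟨n, hn, h⟩ := s.main K
    refine ⟨n, hn, ?_⟩
    rw [abc_iff, abc_iff]
    exact ⟨abcOn_mono (Set.subset_univ _), h⟩
  rcases h with h | h | h | ⟨k, hk, h⟩ | ⟨k, hk, h⟩
  · simp only [Prod.mk.injEq] at h
    obtain ⟨rfl, rfl, rfl⟩ := h
    exact key Pool.Agent.Q239.U.sIco
  · simp only [Prod.mk.injEq] at h
    obtain ⟨rfl, rfl, rfl⟩ := h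
    exact key Pool.Agent.Q239.U.sOct
  · simp only [Prod.mk.injEq] at h
    obtain ⟨rfl, rfl, rfl⟩ := h
    exact key Pool.Agent.Q239.U.sTet
  · obtain ⟨j, rfl⟩ : ∃ j, k = j + 1 := ⟨k - 1, by omega⟩
    simp only [Prod.mk.injEq] at h
    obtain ⟨rfl, rfl, rfl⟩ := h
    exact key (Pool.Agent.Q239.U.sSq j)
  · obtain ⟨j, rfl⟩ : ∃ j, k = j + 1 := ⟨k - 1, by omega⟩
    simp only [Prod.mk.injEq] at h
    obtain ⟨rfl, rfl, rfl⟩ := h
    exact key (Pool.Agent.Q239.U.sPow j)

end Pool.Agent.Results.MP_a793bb_nt.SphericalFermatEquations
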